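import Pool.Agent.Y163.MW.Base

/-!
# The monodromy filtration of an `sl(2)`-representation is the filtration by the weights of `h`
-/

set_option autoImplicit false
set_option linter.unusedSectionVars false

open Module

namespace Pool.Agent.Y68.MW

open Pool.Agent.Y143 Pool.Agent.Y163.MW

universe u v

section

variable {K : Type u} [Field K] [CharZero K] {V : Type v} [AddCommGroup V] [Module K V]
  {ι : Type} [Fintype ι] (b : Basis ι K V) (a : ι → ℤ)

/-- The filtration by the weights. -/
def fil (s : ℤ) : Submodule K V := Submodule.span K (b '' {i | a i ≤ s})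

theorem mem_fil {s : ℤ} {x : V} : x ∈ fil b a s ↔ ∀ i, s < a i → b.repr x i = 0 := by
  unfold fil
  rw [Basis.mem_span_image]
  constructor
  · intro h i hi
    by_contra h1
    have h2 := h (Finsupp.mem_support_iff.2 h1)
    exact absurd h2 (not_le.2 hi)
  · intro h i hi
    by_contra h1
    exact (Finsupp.mem_support_iff.1 hi) (h i (not_le.1 h1))

/-- The component of weight `r`. -/
noncomputable def comp (r : ℤ) (x : V) : V := ∑ i, (if a i = r then b.repr x i else 0) • b i

theorem repr_comp (r : ℤ) (x : V) (i : ι) :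
    b.repr (comp b a r x) i = if a i = r then b.repr x i else 0 := by
  unfold comp
  rw [Basis.repr_sum_self]

variable {b a} {N e h : Module.End K V}

theorem repr_h (H : IsSl2 N b a e h) (x : V) (i : ι) : b.repr (h x) i = (a i : K) * b.repr x i := by
  conv_lhs => rw [← b.sum_repr x]
  rw [map_sum]
  have h1 : ∀ j, h (b.repr x j • b j) = ((a j : K) * b.repr x j) • b j := by
    intro j
    rw [map_smul, H.wt, smul_smul, mul_comm]
  rw [Finset.sum_congr rfl fun j _ => h1 j, Basis.repr_sum_self]

theorem h_comp (H : IsSl2 N b a e h) (r : ℤ) (x : V) : h (comp b a r x) = (r : K) • comp b a r x := by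
  apply b.repr.injective
  ext i
  rw [repr_h H, map_smul, Finsupp.smul_apply, repr_comp, smul_eq_mul]
  split_ifs with h1
  · rw [h1]
  · rw [mul_zero, mul_zero]

theorem repr_eq_zero (H : IsSl2 N b a e h) {r : ℤ} {x : V} (hx : h x = (r : K) • x) {i : ι}
    (hi : a i ≠ r) : b.repr x i = 0 := by
  have h1 := repr_h H x i
  rw [hx, map_smul, Finsupp.smul_apply, smul_eq_mul] at h1
  have h2 : ((a i : K) - (r : K)) * b.repr x i = 0 := by rw [sub_mul, h1, sub_self]
  rcases mul_eq_zero.1 h2 with h3 | h3
  · exact absurd (Int.cast_injective (α := K) (sub_eq_zero.1 h3)) hi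
  · exact h3

theorem h_N (H : IsSl2 N b a e h) {r : ℤ} {x : V} (hx : h x = (r : K) • x) :
    h (N x) = ((r - 2 : ℤ) : K) • N x := by
  have h1 := LinearMap.congr_fun H.hN x
  rw [LinearMap.sub_apply, Module.End.mul_apply, Module.End.mul_apply, hx, map_smul,
    LinearMap.smul_apply, sub_eq_iff_eq_add] at h1
  rw [h1, ← add_smul]
  congr 1
  push_cast
  ring

theorem h_pow (H : IsSl2 N b a e h) {r : ℤ} {x : V} (hx : h x = (r : K) • x) (m : ℕ) :
    h ((N ^ m) x) = ((r - 2 * m : ℤ) : K) • (N ^ m) x := by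
  induction m with
  | zero => simpa using hx
  | succ m ih =>
    rw [pow_succ', Module.End.mul_apply]
    have h1 := h_N H ih
    rw [h1]
    congr 2
    push_cast
    ring

theorem fil_map (H : IsSl2 N b a e h) {s : ℤ} {x : V} (hx : x ∈ fil b a s) :
    N x ∈ fil b a (s - 2) := by
  have h1 : fil b a s ≤ (fil b a (s - 2)).comap N := by
    unfold fil
    rw [Submodule.span_le]
    rintro _ ⟨i, hi, rfl⟩
    change N (b i) ∈ fil b a (s - 2)
    rw [mem_fil]
    intro j hj
    refine repr_eq_zero H (r := a i - 2) (h_N H (H.wt i)) ?_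
    have : a i ≤ s := hi
    omega
  exact h1 hx

theorem fil_pow (H : IsSl2 N b a e h) {s : ℤ} {x : V} (hx : x ∈ fil b a s) (m : ℕ) :
    (N ^ m) x ∈ fil b a (s - 2 * m) := by
  induction m with
  | zero => simpa using hx
  | succ m ih =>
    rw [pow_succ', Module.End.mul_apply]
    have h1 := fil_map H ih
    rwa [show s - 2 * ((m + 1 : ℕ) : ℤ) = s - 2 * m - 2 by push_cast; ring]

theorem comp_mem (r : ℤ) (x : V) : comp b a r x ∈ fil b a r := by
  rw [mem_fil]
  intro i hi
  rw [repr_comp, if_neg (by omega)]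

theorem sub_comp {r : ℤ} {x : V} (hx : x ∈ fil b a r) : x - comp b a r x ∈ fil b a (r - 1) := by
  rw [mem_fil] at hx ⊢
  intro i hi
  rw [map_sub, Finsupp.sub_apply, repr_comp]
  split_ifs with h1
  · exact sub_self _
  · rw [hx i (by omega), sub_zero]

theorem fil_mono : Monotone (fil b a) := fun s _ hst =>
  Submodule.span_mono (Set.image_mono fun i (hi : a i ≤ s) => hi.trans hst)

/-- The filtration by the weights is a monodromy filtration. -/
theorem fil_monodromy (hL : StL.{u, v}) (H : IsSl2 N b a e h) :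
    IsMonodromyFiltrationOn ⊤ N (fil b a) := by
  obtain ⟨h1, h2⟩ : (∀ m : ℕ, ∀ x, h x = (m : K) • x → (N ^ m) x = 0 → x = 0) ∧
      ∀ (m : ℕ) y, h y = (-(m : K)) • y → ∃ x, h x = (m : K) • x ∧ (N ^ m) x = y :=
    ⟨fun m => (hL K V N ι b a e h H m).1, fun m => (hL K V N ι b a e h H m).2⟩
  refine ⟨fil_mono, ?_, ?_, fun _ => le_top, fun s x hx => fil_map H hx, ?_, ?_⟩
  · obtain ⟨s, hs⟩ := (Set.finite_range a).bddBelow
    refine ⟨s - 1, ?_⟩
    rw [eq_bot_iff]
    intro x hx
    rw [mem_fil] at hx
    rw [Submodule.mem_bot]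
    apply b.repr.injective
    ext i
    have := hs ⟨i, rfl⟩
    rw [hx i (by omega), map_zero, Finsupp.zero_apply]
  · obtain ⟨s, hs⟩ := (Set.finite_range a).bddAbove
    refine ⟨s, ?_⟩
    rw [eq_top_iff]
    intro x _
    rw [mem_fil]
    intro i hi
    have := hs ⟨i, rfl⟩
    omega
  · intro m x hx hx2
    have h3 := sub_comp hx
    have h4 : (N ^ m) (comp b a m x) ∈ fil b a (-(m : ℤ) - 1) := by
      have h5 := fil_pow H h3 m
      rw [show (m : ℤ) - 1 - 2 * m = -(m : ℤ) - 1 by ring, map_sub] at h5
      have h6 := Submodule.sub_mem _ hx2 h5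
      rwa [sub_sub_cancel] at h6
    have h5 := h_pow H (h_comp H (m : ℤ) x) m
    have h6 : (N ^ m) (comp b a m x) = 0 := by
      apply b.repr.injective
      ext i
      rw [map_zero, Finsupp.zero_apply]
      by_cases hi : a i = -(m : ℤ)
      · exact (mem_fil b a).1 h4 i (by omega)
      · exact repr_eq_zero H h5 (by omega)
    have h7 := h1 m _ (by simpa using h_comp H (m : ℤ) x) h6
    rwa [h7, sub_zero] at h3
  · intro m y hy
    obtain ⟨x, hx, hx2⟩ := h2 m (comp b a (-(m : ℤ)) y)
      (by simpa using h_comp H (-(m : ℤ)) y)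
    refine ⟨x, ?_, ?_⟩
    · rw [mem_fil]
      intro i hi
      exact repr_eq_zero H (r := (m : ℤ)) (by simpa using hx) (by omega)
    · rw [hx2]
      exact sub_comp hy

end

/-- Job MW-D. -/
theorem stD (hL : StL.{u, v}) : StD.{u, v} := by
  intro K _ _ V _ _ N ι _ b a e h H M hM s
  have h1 := fil_monodromy hL H
  have h2 : M s = fil b a s := by
    apply le_antisymm
    · intro x hx
      exact hM.functorial h1 LinearMap.id (fun _ _ => trivial) one_ne_zero
        (fun x _ => (one_smul K _).symm) s hx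
    · intro x hx
      exact h1.functorial hM LinearMap.id (fun _ _ => trivial) one_ne_zero
        (fun x _ => (one_smul K _).symm) s hx
  exact h2

end Pool.Agent.Y68.MW
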